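import Mathlib
import Pool.Agent.H22.SymLine.Main
import Pool.Agent.H50.Lang.Curves

/-!
# Lines in projective sets with an automorphism having two large eigenspaces

Let `X ⊆ P^N` be the common zero set of forms `G_1, …, G_c` of degrees `e_1, …, e_c ≥ 1` and let
`A` be a linear endomorphism of `ℂ^(N+1)` with `G_i(A x) = χ_i G_i(x)`.  Let `E` and `E'` be the
eigenspaces of `A` for two different numbers `lam` and `mu`.  If

* `∑_i #{0 ≤ j ≤ e_i : lam^j mu^(e_i - j) = χ_i} + 2 ≤ dim E + dim E'`,
* `#{i : lam^(e_i) = χ_i} < dim E` and `#{i : mu^(e_i) = χ_i} < dim E'`,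

then `X` contains a line that joins a point of `P(E)` and a point of `P(E')`.  If `lam / mu` has
order `k`, then the sum is at most `∑_i (⌊e_i / k⌋ + 1)`.
-/

set_option autoImplicit false

namespace Pool.Agent.Results.MP_c6ff8d_ag.SymmetricLines

open MvPolynomial Pool.Agent.H50.Lang Pool.Agent.H86.Refl

/-- **Theorem.**  Let `G_1, …, G_c` be forms of degrees `e_1, …, e_c ≥ 1` in `N + 1` variables that
are semi-invariant under a linear endomorphism `A`, `G_i(A x) = χ_i G_i(x)`, let `lam ≠ mu` and let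
`E`, `E'` be the eigenspaces of `A` for `lam` and `mu`.  If
`∑_i #{0 ≤ j ≤ e_i : lam^j mu^(e_i - j) = χ_i} + 2 ≤ dim E + dim E'`, fewer than `dim E` of the
`G_i` satisfy `χ_i = lam^(e_i)` and fewer than `dim E'` of them satisfy `χ_i = mu^(e_i)`, then
`X = {G_1 = … = G_c = 0} ⊆ P^N` contains the line through some point of `P(E)` and some point of
`P(E')`; in particular `X` is not (Brody) hyperbolic. -/
theorem result (N c : ℕ) (e : Fin c → ℕ) (he : ∀ i, 1 ≤ e i)
    (G : Fin c → MvPolynomial (Fin (N + 1)) ℂ) (hG : ∀ i, (G i).IsHomogeneous (e i))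
    (A : Module.End ℂ (Fin (N + 1) → ℂ)) (χ : Fin c → ℂ)
    (hA : ∀ (i : Fin c) (x : Fin (N + 1) → ℂ), eval (A x) (G i) = χ i * eval x (G i))
    (lam mu : ℂ) (hne : lam ≠ mu)
    (h : ∑ i, ((Finset.range (e i + 1)).filter fun j => lam ^ j * mu ^ (e i - j) = χ i).card + 2 ≤
      Module.finrank ℂ (A.eigenspace lam) + Module.finrank ℂ (A.eigenspace mu))
    (hlam : (Finset.univ.filter fun i => lam ^ e i = χ i).card <
      Module.finrank ℂ (A.eigenspace lam))
    (hmu : (Finset.univ.filter fun i => mu ^ e i = χ i).card <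
      Module.finrank ℂ (A.eigenspace mu)) :
    (∃ x y : Fin (N + 1) → ℂ, LinearIndependent ℂ ![x, y] ∧ A x = lam • x ∧ A y = mu • y ∧
      ∀ (i : Fin c) (s t : ℂ), eval (s • x + t • y) (G i) = 0) ∧
    ¬ IsBrodyHyperbolic (projectiveSet G) := by
  obtain ⟨x, y, hx, hy, hAx, hAy, hxy⟩ :=
    Pool.Agent.H22.SymLine.exists_line e he G hG A χ hA lam mu h hlam hmu
  have hind : ∀ s t : ℂ, s • x + t • y = 0 → s = 0 ∧ t = 0 := by
    intro s t hst
    have h1 := congrArg A hst
    rw [map_add, map_smul, map_smul, hAx, hAy, map_zero] at h1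
    have h2 : (s * (lam - mu)) • x = 0 := by
      have h3 : (s * (lam - mu)) • x = (s • lam • x + t • mu • y) - mu • (s • x + t • y) := by
        module
      rw [h3, h1, hst, smul_zero, sub_zero]
    have h3 : s = 0 := by
      rcases smul_eq_zero.mp h2 with h4 | h4
      · exact (mul_eq_zero.mp h4).resolve_right (sub_ne_zero.mpr hne)
      · exact absurd h4 hx
    refine ⟨h3, ?_⟩
    rw [h3, zero_smul, zero_add] at hst
    exact (smul_eq_zero.mp hst).resolve_right hy
  refine ⟨⟨x, y, ?_, hAx, hAy, hxy⟩, ?_⟩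
  · rw [LinearIndependent.pair_iff]
    exact hind
  · apply not_hyperbolic_of_rational hG
    have hev : ∀ z : ℂ, (fun i => (Polynomial.C (x i) + Polynomial.C (y i) *
        Polynomial.X).eval z) = (1 : ℂ) • x + z • y := by
      intro z
      funext i
      simp
      ring
    refine ⟨fun i => Polynomial.C (x i) + Polynomial.C (y i) * Polynomial.X, fun z => ?_,
      fun j z => ?_, 0, 1, fun a => ?_⟩
    · rw [hev]
      intro h0
      exact one_ne_zero (hind _ _ h0).1
    · rw [hev]
      exact hxy j 1 z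
    · rw [hev, hev]
      intro h0
      have h1 : (1 - a) • x + (0 - a) • y = 0 := by
        have h2 : (1 - a) • x + (0 - a) • y =
            ((1 : ℂ) • x + (0 : ℂ) • y) - a • ((1 : ℂ) • x + (1 : ℂ) • y) := by module
        rw [h2, h0, sub_self]
      obtain ⟨h2, h3⟩ := hind _ _ h1
      have : (1 : ℂ) = 0 := by linear_combination h2 - h3
      exact one_ne_zero this

end Pool.Agent.Results.MP_c6ff8d_ag.SymmetricLines
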